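import Pool.Agent.V1186.Chee.Exist

set_option autoImplicit false

namespace Pool.Agent.Results.MP_302605_an.OptimalAnisotropy

open Pool.Agent.V1186

/-- **Existence of optimal anisotropies** for the anisotropic Cheeger constant: for every `N ≥ 1`
and every bounded `Ω ⊆ ℝ^N` (no convexity needed) the functional
`J_Ω[K] = h_K(Ω) |K°|^{1/N}` has a minimizer in the class `K_N` of open bounded convex sets that are
symmetric with respect to the origin. -/
theorem result : ∀ N : ℕ, 1 ≤ N → ∀ Ω : Set (EuclideanSpace ℝ (Fin N)), Bornology.IsBounded Ω →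
    ∃ K : Set (EuclideanSpace ℝ (Fin N)), Chee.IsAniso K ∧
      ∀ K' : Set (EuclideanSpace ℝ (Fin N)), Chee.IsAniso K' → Chee.J Ω K ≤ Chee.J Ω K' :=
  fun _ hN _ hΩ => Chee.exists_min (by omega) hΩ

end Pool.Agent.Results.MP_302605_an.OptimalAnisotropy
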